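import Pool.Agent.W397.IW.LeqA

/-!
# Project IW: the limit equation
-/

set_option autoImplicit false
set_option linter.unusedSectionVars false

namespace Pool.Agent.W397.IW.Leq

open MeasureTheory Set Filter Topology Pool.Agent.W488.IW

variable {H : Type} [NormedAddCommGroup H] [InnerProductSpace ℂ H] [CompleteSpace H]

lemma cont_of_lip {f : H × H → H} {L : ℝ}
    (h : ∀ a b a' b', ‖f (a, b) - f (a', b')‖ ≤ L * (‖a - a'‖ + ‖b - b'‖)) : Continuous f := by
  have h1 : LipschitzWith (Real.toNNReal (2 * |L|)) f := by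
    apply LipschitzWith.of_dist_le_mul
    rintro ⟨a, b⟩ ⟨a', b'⟩
    rw [Real.coe_toNNReal _ (by positivity), dist_eq_norm]
    refine (h a b a' b').trans ?_
    have h2 : ‖a - a'‖ ≤ dist (a, b) (a', b') := by
      rw [← dist_eq_norm, Prod.dist_eq]; exact le_max_left _ _
    have h3 : ‖b - b'‖ ≤ dist (a, b) (a', b') := by
      rw [← dist_eq_norm, Prod.dist_eq]; exact le_max_right _ _
    have h4 : 0 ≤ ‖a - a'‖ + ‖b - b'‖ := by positivity
    calc L * (‖a - a'‖ + ‖b - b'‖) ≤ |L| * (‖a - a'‖ + ‖b - b'‖) :=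
          mul_le_mul_of_nonneg_right (le_abs_self L) h4
      _ ≤ |L| * (dist (a, b) (a', b') + dist (a, b) (a', b')) :=
          mul_le_mul_of_nonneg_left (add_le_add h2 h3) (abs_nonneg L)
      _ = 2 * |L| * dist (a, b) (a', b') := by ring
  exact h1.continuous

lemma cont_s (D : Dat H) (k : Idx) : Continuous fun x : H × H => D.s x.1 x.2 (D.e k) :=
  cont_of_lip (f := fun x : H × H => D.s x.1 x.2 (D.e k)) (L := D.L)
    fun a b a' b' => D.h2 a b a' b' k

lemma cont_sa (D : Dat H) (k : Idx) : Continuous fun x : H × H => (D.s x.1 x.2).adjoint (D.e k) :=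
  cont_of_lip (f := fun x : H × H => (D.s x.1 x.2).adjoint (D.e k)) (L := D.L)
    fun a b a' b' => D.h3 a b a' b' k

lemma int3 {μ : Measure ℝ} {f g h : ℝ → ℂ} (c : ℂ) (hf : Integrable f μ) (hg : Integrable g μ)
    (hh : Integrable h μ) : Integrable (fun s => c * f s + g s + h s) μ ∧
      ∫ s, (c * f s + g s + h s) ∂μ = c * ∫ s, f s ∂μ + ∫ s, g s ∂μ + ∫ s, h s ∂μ := by
  have i1 : Integrable (fun s => c * f s) μ := hf.const_mul c
  have i2 : Integrable (fun s => c * f s + g s) μ := i1.add hg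
  refine ⟨i2.add hh, ?_⟩
  rw [integral_add i2 hh, integral_add i1 hg, integral_const_mul]

/-- the first test vector -/
noncomputable def fs (D : Dat H) (k : Idx) (x : H × H) : H := D.s x.1 x.2 (D.e k)

/-- the second test vector -/
noncomputable def fa (D : Dat H) (k : Idx) (x : H × H) : H := (D.s x.1 x.2).adjoint (D.e k)

lemma norm_s_le (D : Dat H) (a b : H) (k : Idx) : ‖D.s a b (D.e k)‖ ≤ 1 := by
  refine (ContinuousLinearMap.le_opNorm _ _).trans ?_
  rw [D.e.orthonormal.1 k, mul_one]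
  exact D.h1 a b

lemma norm_sa_le (D : Dat H) (a b : H) (k : Idx) : ‖(D.s a b).adjoint (D.e k)‖ ≤ 1 := by
  refine (ContinuousLinearMap.le_opNorm _ _).trans ?_
  rw [D.e.orthonormal.1 k, mul_one, LinearIsometryEquiv.norm_map]
  exact D.h1 a b

section sol

variable {D : Dat H} {T : ℝ} {c0 : Idx → ℂ} {Nn : ℕ → ℕ} {cs : ℕ → ℝ → Idx → ℂ}
  {cl : ℝ → Idx → ℂ}

lemma cont_cs {N : ℕ} {c : ℝ → Idx → ℂ} (h : Sol D N T c0 c) (k : Idx) :
    ContinuousOn (fun t => c t k) (Icc 0 T) := by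
  by_cases hk : k ∈ box N
  · exact fun t ht => (h.2.2 k hk t ht).continuousWithinAt
  · have : (fun t => c t k) = fun _ => 0 := by
      funext t
      exact h.2.1 t k hk
    rw [this]
    exact continuousOn_const

lemma cont_sm {N : ℕ} {c : ℝ → Idx → ℂ} (h : Sol D N T c0 c) (w : Idx → ℂ) (Λ : Finset Idx) :
    ContinuousOn (fun t => sm D Λ w (c t)) (Icc 0 T) := by
  unfold sm
  exact continuousOn_finsetSum _ fun k _ =>
    ((continuousOn_const.mul (cont_cs h k)).smul continuousOn_const)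

lemma norm_sm_sq_le {w : Idx → ℂ} (hw : ∀ k, ‖w k‖ ≤ m2 k) (N : ℕ) (c : Idx → ℂ) :
    ‖sm D (box N) w c‖ ^ 2 ≤ di N c := by
  rw [norm_sm_sq]
  unfold di
  apply Finset.sum_le_sum
  intro k _
  rw [norm_mul, mul_pow]
  exact mul_le_mul_of_nonneg_right (pow_le_pow_left₀ (norm_nonneg _) (hw k) 2) (by positivity)

lemma di_nonneg (N : ℕ) (c : Idx → ℂ) : 0 ≤ di N c := by
  unfold di
  exact Finset.sum_nonneg fun k _ => by positivity

lemma cont_di {N : ℕ} {c : ℝ → Idx → ℂ} (h : Sol D N T c0 c) :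
    ContinuousOn (fun t => di N (c t)) (Icc 0 T) := by
  unfold di
  exact continuousOn_finsetSum _ fun k _ => continuousOn_const.mul ((cont_cs h k).norm.pow 2)

lemma en_le (h : Conv D T c0 Nn cs cl) (j : ℕ) : en (Nn j) c0 ≤ en (Nn 0) c0 := by
  have h0 : ∀ k, k ∉ box (Nn 0) → c0 k = 0 := by
    intro k hk
    have h1 := (h.2.2.1 0).1
    have h2 := (h.2.2.1 0).2.1 0 k hk
    rw [h1] at h2
    exact h2
  unfold en
  apply le_of_eq
  symm
  apply Finset.sum_subset (box_mono (h.2.1.monotone (Nat.zero_le j)))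
  intro k _ hk
  rw [h0 k hk]
  simp

end sol

/-- the measure -/
noncomputable abbrev mu (t : ℝ) : Measure ℝ := volume.restrict (Ioc (0 : ℝ) t)

theorem main (hEN : S_EN) (hLIM : S_LIM) : S_LEQ := by
  intro H _ _ _ D T c0 Nn cs cl hconv k t ht
  have hT := hconv.1
  have hSol := hconv.2.2.1
  have hn := D.hn
  obtain ⟨hs, hi, hm, ha, hb⟩ := hLIM H D T c0 Nn cs cl hconv
  have hsub : Ioc (0 : ℝ) t ⊆ Icc 0 T := fun s hs => ⟨hs.1.le, hs.2.trans ht.2⟩
  have hle : mu t ≤ volume.restrict (Icc 0 T) := Measure.restrict_mono hsub le_rfl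
  have hs' : ∀ᵐ s ∂(mu t), Summable fun k => m2 k ^ 2 * ‖cl s k‖ ^ 2 :=
    ae_mono hle hs
  -- the constant
  set C1 : ℝ := en (Nn 0) c0 / (2 * (D.n - 2)) with hC1
  set C2 : ℝ := ∫ s in Icc 0 T, ∑' k, m2 k ^ 2 * ‖cl s k‖ ^ 2 with hC2
  have hC1' : 0 ≤ C1 := by
    apply div_nonneg _ (by linarith)
    unfold en
    exact Finset.sum_nonneg fun k _ => mul_nonneg (m2_nonneg k) (by positivity)
  have hC2' : 0 ≤ C2 := integral_nonneg fun s => tsum_nonneg fun k => by positivity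
  have hdi : ∀ j, ∫ s in Icc 0 T, di (Nn j) (cs j s) ≤ C1 := by
    intro j
    have h1 := (hEN H D (Nn j) T c0 (cs j) hT (hSol j)).2
    rw [intervalIntegral.integral_of_le hT.le, ← integral_Icc_eq_integral_Ioc] at h1
    refine h1.trans ?_
    exact div_le_div_of_nonneg_right (en_le hconv j) (by linarith)
  -- properties of the approximations
  have hum : ∀ (w : Idx → ℂ) j, AEStronglyMeasurable (fun s => sm D (box (Nn j)) w (cs j s))
      (volume.restrict (Icc 0 T)) := fun w j =>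
    (cont_sm (hSol j) w _).aestronglyMeasurable measurableSet_Icc
  have hui : ∀ (w : Idx → ℂ) j, IntegrableOn (fun s => ‖sm D (box (Nn j)) w (cs j s)‖ ^ 2)
      (Icc 0 T) := fun w j =>
    ((cont_sm (hSol j) w _).norm.pow 2).integrableOn_compact isCompact_Icc
  have huC : ∀ (w : Idx → ℂ), (∀ k, ‖w k‖ ≤ m2 k) → ∀ j,
      ∫ s, ‖sm D (box (Nn j)) w (cs j s)‖ ^ 2 ∂(mu t) ≤ C1 + C2 := by
    intro w hw j
    have h1 : ∫ s, ‖sm D (box (Nn j)) w (cs j s)‖ ^ 2 ∂(mu t) ≤
        ∫ s in Icc 0 T, ‖sm D (box (Nn j)) w (cs j s)‖ ^ 2 :=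
      setIntegral_mono_set (hui w j) (Filter.Eventually.of_forall fun s => by positivity)
        (Filter.Eventually.of_forall hsub)
    have h2 : ∫ s in Icc 0 T, ‖sm D (box (Nn j)) w (cs j s)‖ ^ 2 ≤
        ∫ s in Icc 0 T, di (Nn j) (cs j s) :=
      setIntegral_mono (hui w j) ((cont_di (hSol j)).integrableOn_compact isCompact_Icc)
        fun s => norm_sm_sq_le hw _ _
    linarith [hdi j]
  -- properties of the limit
  have hlm : ∀ w : Idx → ℂ, (∀ k, ‖w k‖ ≤ m2 k) →
      AEStronglyMeasurable (fun s => smI D w (cl s)) (volume.restrict (Icc 0 T)) := hm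
  have hli : ∀ w : Idx → ℂ, (∀ k, ‖w k‖ ≤ m2 k) →
      IntegrableOn (fun s => ‖smI D w (cl s)‖ ^ 2) (Icc 0 T) := by
    intro w hw
    refine Integrable.mono' hi ((hlm w hw).norm.pow 2) ?_
    filter_upwards [hs] with s h1
    rw [Real.norm_of_nonneg (by positivity)]
    exact norm_smI_sq_le D hw h1
  have hlC : ∀ w : Idx → ℂ, (∀ k, ‖w k‖ ≤ m2 k) →
      ∫ s, ‖smI D w (cl s)‖ ^ 2 ∂(mu t) ≤ C1 + C2 := by
    intro w hw
    have h1 : ∫ s, ‖smI D w (cl s)‖ ^ 2 ∂(mu t) ≤ ∫ s in Icc 0 T, ‖smI D w (cl s)‖ ^ 2 :=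
      setIntegral_mono_set (hli w hw) (Filter.Eventually.of_forall fun s => by positivity)
        (Filter.Eventually.of_forall hsub)
    have h2 : ∫ s in Icc 0 T, ‖smI D w (cl s)‖ ^ 2 ≤ C2 := by
      apply integral_mono_ae (hli w hw) hi
      filter_upwards [hs] with s h3
      exact norm_smI_sq_le D hw h3
    linarith
  -- convergence of the coefficients
  have hco : ∀ w : Idx → ℂ, (∀ k, ‖w k‖ ≤ m2 k) → ∀ l,
      Tendsto (fun j => ∫ s, ‖(inner ℂ (D.e l) (sm D (box (Nn j)) w (cs j s)) : ℂ) -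
        (inner ℂ (D.e l) (smI D w (cl s)) : ℂ)‖ ∂(mu t)) atTop (𝓝 0) := by
    intro w hw l
    rw [Metric.tendsto_atTop]
    intro ε hε
    have hu := (Metric.tendstoUniformlyOn_iff.1 (hconv.2.2.2.2 l))
      (ε / ((‖w l‖ + 1) * (T + 1))) (by positivity)
    have hbox : ∀ᶠ j in atTop, l ∈ box (Nn j) := by
      have h1 : Tendsto (fun j => box (Nn j)) atTop atTop :=
        tendsto_box.comp hconv.2.1.tendsto_atTop
      exact (h1.eventually (eventually_ge_atTop {l})).mono fun j hj =>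
        hj (Finset.mem_singleton_self l)
    obtain ⟨j0, hj0⟩ := (hu.and hbox).exists_forall_of_atTop
    refine ⟨j0, fun j hj => ?_⟩
    obtain ⟨h1, h2⟩ := hj0 j hj
    rw [Real.dist_eq, sub_zero, abs_of_nonneg (integral_nonneg fun s => norm_nonneg _)]
    have h3 : ∀ᵐ s ∂(mu t), ‖(inner ℂ (D.e l) (sm D (box (Nn j)) w (cs j s)) : ℂ) -
        (inner ℂ (D.e l) (smI D w (cl s)) : ℂ)‖ ≤ ‖w l‖ * (ε / ((‖w l‖ + 1) * (T + 1))) := by
      filter_upwards [hs', ae_restrict_mem measurableSet_Ioc] with s h4 h5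
      have h6 : Summable fun k => ‖w k * cl s k‖ ^ 2 := by
        refine Summable.of_nonneg_of_le (fun k => by positivity) (fun k => ?_) h4
        rw [norm_mul, mul_pow]
        exact mul_le_mul_of_nonneg_right (pow_le_pow_left₀ (norm_nonneg _) (hw k) 2)
          (by positivity)
      rw [inner_sm D w (cs j s) h2, (hasSum_smI D h6).2 l, ← mul_sub, norm_mul]
      have h7 := h1 s (hsub h5)
      rw [dist_comm, dist_eq_norm] at h7
      exact mul_le_mul_of_nonneg_left h7.le (norm_nonneg _)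
    have h4 : ∫ s, ‖(inner ℂ (D.e l) (sm D (box (Nn j)) w (cs j s)) : ℂ) -
        (inner ℂ (D.e l) (smI D w (cl s)) : ℂ)‖ ∂(mu t) ≤
        ‖w l‖ * (ε / ((‖w l‖ + 1) * (T + 1))) * t := by
      have h5 := norm_integral_le_of_norm_le_const (μ := mu t)
        (f := fun s => ‖(inner ℂ (D.e l) (sm D (box (Nn j)) w (cs j s)) : ℂ) -
        (inner ℂ (D.e l) (smI D w (cl s)) : ℂ)‖) (C := ‖w l‖ * (ε / ((‖w l‖ + 1) * (T + 1))))
        (h3.mono fun s h6 => by rw [norm_norm]; exact h6)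
      have h7 : (mu t).real univ = t := by
        simp [Measure.real, mu, ht.1]
      rw [h7] at h5
      exact (le_abs_self _).trans h5
    refine lt_of_le_of_lt h4 ?_
    have h5 : ‖w l‖ * (ε / ((‖w l‖ + 1) * (T + 1))) * t =
        ε * ((‖w l‖ / (‖w l‖ + 1)) * (t / (T + 1))) := by
      field_simp
    rw [h5]
    have h6 : ‖w l‖ / (‖w l‖ + 1) ≤ 1 := by
      rw [div_le_one (by positivity)]; linarith
    have h7 : t / (T + 1) < 1 := by
      rw [div_lt_one (by linarith)]; linarith [ht.2]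
    have h8 : (‖w l‖ / (‖w l‖ + 1)) * (t / (T + 1)) < 1 := by
      have h9 : 0 ≤ t / (T + 1) := div_nonneg ht.1 (by linarith)
      calc (‖w l‖ / (‖w l‖ + 1)) * (t / (T + 1)) ≤ 1 * (t / (T + 1)) :=
            mul_le_mul_of_nonneg_right h6 h9
        _ < 1 := by rw [one_mul]; exact h7
    nlinarith
  -- the test vectors
  have hA : ∀ j, AEStronglyMeasurable (fun s => (sm D (box (Nn j)) ka (cs j s),
      sm D (box (Nn j)) kb (cs j s))) (volume.restrict (Icc 0 T)) := fun j =>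
    (hum ka j).prodMk (hum kb j)
  have hAl : AEStronglyMeasurable (fun s => (smI D ka (cl s), smI D kb (cl s)))
      (volume.restrict (Icc 0 T)) := (hlm ka norm_ka_le).prodMk (hlm kb norm_kb_le)
  have htest : ∀ f : H × H → H, Continuous f → (∀ x, ‖f x‖ ≤ 1) →
      (∀ a b a' b', ‖f (a, b) - f (a', b')‖ ≤ D.L * (‖a - a'‖ + ‖b - b'‖)) →
      Tendsto (fun j => ∫ s, ‖f (sm D (box (Nn j)) ka (cs j s), sm D (box (Nn j)) kb (cs j s)) -
        f (smI D ka (cl s), smI D kb (cl s))‖ ^ 2 ∂(mu t)) atTop (𝓝 0) := by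
    intro f hfc hf1 hfL
    have hd : ∀ j (w : Idx → ℂ), (∀ k, ‖w k‖ ≤ m2 k) →
        IntegrableOn (fun s => ‖sm D (box (Nn j)) w (cs j s) - smI D w (cl s)‖ ^ 2)
          (Icc 0 T) := by
      intro j w hw
      refine Integrable.mono' (((hui w j).const_mul 2).add ((hli w hw).const_mul 2))
        (((hum w j).sub (hlm w hw)).norm.pow 2) (Filter.Eventually.of_forall fun s => ?_)
      rw [Real.norm_of_nonneg (by positivity)]
      have := norm_sub_le (sm D (box (Nn j)) w (cs j s)) (smI D w (cl s))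
      simp only [Pi.add_apply]
      nlinarith [norm_nonneg (sm D (box (Nn j)) w (cs j s) - smI D w (cl s)),
        sq_nonneg (‖sm D (box (Nn j)) w (cs j s)‖ - ‖smI D w (cl s)‖),
        norm_nonneg (sm D (box (Nn j)) w (cs j s)), norm_nonneg (smI D w (cl s))]
    have hup : Tendsto (fun j => 2 * D.L ^ 2 *
        (∫ s in Icc 0 T, ‖sm D (box (Nn j)) ka (cs j s) - smI D ka (cl s)‖ ^ 2) +
        2 * D.L ^ 2 * (∫ s in Icc 0 T, ‖sm D (box (Nn j)) kb (cs j s) - smI D kb (cl s)‖ ^ 2))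
        atTop (𝓝 0) := by
      have := (ha.const_mul (2 * D.L ^ 2)).add (hb.const_mul (2 * D.L ^ 2))
      simpa using this
    refine squeeze_zero (fun j => integral_nonneg fun s => by positivity) (fun j => ?_) hup
    have hI : IntegrableOn (fun s => 2 * D.L ^ 2 *
        ‖sm D (box (Nn j)) ka (cs j s) - smI D ka (cl s)‖ ^ 2 + 2 * D.L ^ 2 *
        ‖sm D (box (Nn j)) kb (cs j s) - smI D kb (cl s)‖ ^ 2) (Icc 0 T) :=
      ((hd j ka norm_ka_le).const_mul _).add ((hd j kb norm_kb_le).const_mul _)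
    have h1 : ∀ s, ‖f (sm D (box (Nn j)) ka (cs j s), sm D (box (Nn j)) kb (cs j s)) -
        f (smI D ka (cl s), smI D kb (cl s))‖ ^ 2 ≤ 2 * D.L ^ 2 *
        ‖sm D (box (Nn j)) ka (cs j s) - smI D ka (cl s)‖ ^ 2 + 2 * D.L ^ 2 *
        ‖sm D (box (Nn j)) kb (cs j s) - smI D kb (cl s)‖ ^ 2 := by
      intro s
      have h2 := hfL (sm D (box (Nn j)) ka (cs j s)) (sm D (box (Nn j)) kb (cs j s))
        (smI D ka (cl s)) (smI D kb (cl s))
      set x := ‖sm D (box (Nn j)) ka (cs j s) - smI D ka (cl s)‖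
      set y := ‖sm D (box (Nn j)) kb (cs j s) - smI D kb (cl s)‖
      have h3 := pow_le_pow_left₀ (norm_nonneg _) h2 2
      refine h3.trans ?_
      have h4 : (D.L * (x + y)) ^ 2 = D.L ^ 2 * (x + y) ^ 2 := by ring
      have h5 : (x + y) ^ 2 ≤ 2 * x ^ 2 + 2 * y ^ 2 := by nlinarith [sq_nonneg (x - y)]
      rw [h4]
      have := mul_le_mul_of_nonneg_left h5 (sq_nonneg D.L)
      linarith
    have h6 : IntegrableOn (fun s => ‖f (sm D (box (Nn j)) ka (cs j s),
        sm D (box (Nn j)) kb (cs j s)) - f (smI D ka (cl s), smI D kb (cl s))‖ ^ 2)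
        (Icc 0 T) := by
      refine Integrable.mono' hI (((hfc.comp_aestronglyMeasurable (hA j)).sub
        (hfc.comp_aestronglyMeasurable hAl)).norm.pow 2) (Filter.Eventually.of_forall fun s => ?_)
      rw [Real.norm_of_nonneg (by positivity)]
      exact h1 s
    calc ∫ s, ‖f (sm D (box (Nn j)) ka (cs j s), sm D (box (Nn j)) kb (cs j s)) -
          f (smI D ka (cl s), smI D kb (cl s))‖ ^ 2 ∂(mu t)
        ≤ ∫ s in Icc 0 T, ‖f (sm D (box (Nn j)) ka (cs j s), sm D (box (Nn j)) kb (cs j s)) -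
          f (smI D ka (cl s), smI D kb (cl s))‖ ^ 2 :=
          setIntegral_mono_set h6 (Filter.Eventually.of_forall fun s => by positivity)
            (Filter.Eventually.of_forall hsub)
      _ ≤ ∫ s in Icc 0 T, (2 * D.L ^ 2 *
          ‖sm D (box (Nn j)) ka (cs j s) - smI D ka (cl s)‖ ^ 2 + 2 * D.L ^ 2 *
          ‖sm D (box (Nn j)) kb (cs j s) - smI D kb (cl s)‖ ^ 2) := setIntegral_mono h6 hI h1
      _ = _ := by
          rw [integral_add ((hd j ka norm_ka_le).const_mul _) ((hd j kb norm_kb_le).const_mul _),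
            integral_const_mul, integral_const_mul]
  -- general term
  have hterm : ∀ (f : H × H → H), Continuous f → (∀ x, ‖f x‖ ≤ 1) →
      Tendsto (fun j => ∫ s, ‖f (sm D (box (Nn j)) ka (cs j s), sm D (box (Nn j)) kb (cs j s)) -
        f (smI D ka (cl s), smI D kb (cl s))‖ ^ 2 ∂(mu t)) atTop (𝓝 0) →
      ∀ w : Idx → ℂ, (∀ k, ‖w k‖ ≤ m2 k) →
      (∀ j, Integrable (fun s => (inner ℂ (f (sm D (box (Nn j)) ka (cs j s),
        sm D (box (Nn j)) kb (cs j s))) (sm D (box (Nn j)) w (cs j s)) : ℂ)) (mu t)) ∧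
      Integrable (fun s => (inner ℂ (f (smI D ka (cl s), smI D kb (cl s)))
        (smI D w (cl s)) : ℂ)) (mu t) ∧
      Tendsto (fun j => ∫ s, (inner ℂ (f (sm D (box (Nn j)) ka (cs j s),
        sm D (box (Nn j)) kb (cs j s))) (sm D (box (Nn j)) w (cs j s)) : ℂ) ∂(mu t)) atTop
        (𝓝 (∫ s, (inner ℂ (f (smI D ka (cl s), smI D kb (cl s))) (smI D w (cl s)) : ℂ)
          ∂(mu t))) := by
    intro f hfc hf1 hft w hw
    have m1 : ∀ j, AEStronglyMeasurable (fun s => f (sm D (box (Nn j)) ka (cs j s),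
        sm D (box (Nn j)) kb (cs j s))) (mu t) := fun j =>
      (hfc.comp_aestronglyMeasurable (hA j)).mono_measure hle
    have m2' : AEStronglyMeasurable (fun s => f (smI D ka (cl s), smI D kb (cl s))) (mu t) :=
      (hfc.comp_aestronglyMeasurable hAl).mono_measure hle
    have i1 : ∀ j, Integrable (fun s => ‖sm D (box (Nn j)) w (cs j s)‖ ^ 2) (mu t) := fun j =>
      Integrable.mono_measure (hui w j) hle
    have i2 : Integrable (fun s => ‖smI D w (cl s)‖ ^ 2) (mu t) :=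
      Integrable.mono_measure (hli w hw) hle
    refine ⟨fun j => integrable_inner (m1 j) (fun s => hf1 _) ((hum w j).mono_measure hle) (i1 j),
      integrable_inner m2' (fun s => hf1 _) ((hlm w hw).mono_measure hle) i2, ?_⟩
    exact weak_strong D (fun j => (hum w j).mono_measure hle) ((hlm w hw).mono_measure hle) i1 i2
      (huC w hw) (hlC w hw) (hco w hw) m1 m2' (fun j s => hf1 _) (fun s => hf1 _) hft
  obtain ⟨p1, p2, p3⟩ := hterm (fa D k) (cont_sa D k) (fun x => norm_sa_le D _ _ k)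
    (htest (fa D k) (cont_sa D k) (fun x => norm_sa_le D _ _ k)
      fun a b a' b' => D.h3 a b a' b' k) (fun k => ka k ^ 2) norm_p_le
  obtain ⟨r1, r2, r3⟩ := hterm (fs D k) (cont_s D k) (fun x => norm_s_le D _ _ k)
    (htest (fs D k) (cont_s D k) (fun x => norm_s_le D _ _ k)
      fun a b a' b' => D.h2 a b a' b' k) (fun k => kb k ^ 2) norm_r_le
  obtain ⟨q1, q2, q3⟩ := hterm (fun _ => D.e k) continuous_const
    (fun x => (D.e.orthonormal.1 k).le) (by simp) (fun k => ka k * kb k) norm_q_le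
  -- the velocity
  have hV : ∀ a b p q r : H, (inner ℂ (D.e k) (Vf D a b p q r) : ℂ) =
      (D.n : ℂ) * inner ℂ (D.e k) q + inner ℂ (fa D k (a, b)) p + inner ℂ (fs D k (a, b)) r := by
    intro a b p q r
    unfold Vf fa fs
    rw [inner_add_right, inner_add_right, inner_smul_right,
      ContinuousLinearMap.adjoint_inner_left, ContinuousLinearMap.adjoint_inner_right]
  have hVj : ∀ j, Integrable (fun s => (inner ℂ (D.e k) (VN D (box (Nn j)) (cs j s)) : ℂ))
      (mu t) ∧ ∫ s, (inner ℂ (D.e k) (VN D (box (Nn j)) (cs j s)) : ℂ) ∂(mu t) =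
      (D.n : ℂ) * (∫ s, (inner ℂ (D.e k) (sm D (box (Nn j)) (fun k => ka k * kb k) (cs j s)) : ℂ)
        ∂(mu t)) + (∫ s, (inner ℂ (fa D k (sm D (box (Nn j)) ka (cs j s),
          sm D (box (Nn j)) kb (cs j s)))
          (sm D (box (Nn j)) (fun k => ka k ^ 2) (cs j s)) : ℂ) ∂(mu t)) +
        ∫ s, (inner ℂ (fs D k (sm D (box (Nn j)) ka (cs j s),
          sm D (box (Nn j)) kb (cs j s)))
          (sm D (box (Nn j)) (fun k => kb k ^ 2) (cs j s)) : ℂ) ∂(mu t) := by
    intro j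
    have h3 := int3 (D.n : ℂ) (q1 j) (p1 j) (r1 j)
    have e : (fun s => (inner ℂ (D.e k) (VN D (box (Nn j)) (cs j s)) : ℂ)) = fun s =>
        (D.n : ℂ) * (inner ℂ (D.e k) (sm D (box (Nn j)) (fun k => ka k * kb k) (cs j s)) : ℂ) +
          (inner ℂ (fa D k (sm D (box (Nn j)) ka (cs j s), sm D (box (Nn j)) kb (cs j s)))
          (sm D (box (Nn j)) (fun k => ka k ^ 2) (cs j s)) : ℂ) +
          (inner ℂ (fs D k (sm D (box (Nn j)) ka (cs j s), sm D (box (Nn j)) kb (cs j s)))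
          (sm D (box (Nn j)) (fun k => kb k ^ 2) (cs j s)) : ℂ) :=
      funext fun s => hV _ _ _ _ _
    rw [e]
    exact h3
  have hVl : ∫ s, (inner ℂ (D.e k) (VI D (cl s)) : ℂ) ∂(mu t) =
      (D.n : ℂ) * (∫ s, (inner ℂ (D.e k) (smI D (fun k => ka k * kb k) (cl s)) : ℂ) ∂(mu t)) +
      (∫ s, (inner ℂ (fa D k (smI D ka (cl s), smI D kb (cl s)))
          (smI D (fun k => ka k ^ 2) (cl s)) : ℂ) ∂(mu t)) +
        ∫ s, (inner ℂ (fs D k (smI D ka (cl s), smI D kb (cl s)))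
          (smI D (fun k => kb k ^ 2) (cl s)) : ℂ) ∂(mu t) := by
    have h3 := int3 (D.n : ℂ) q2 p2 r2
    have e : (fun s => (inner ℂ (D.e k) (VI D (cl s)) : ℂ)) = fun s =>
        (D.n : ℂ) * (inner ℂ (D.e k) (smI D (fun k => ka k * kb k) (cl s)) : ℂ) +
        (inner ℂ (fa D k (smI D ka (cl s), smI D kb (cl s)))
          (smI D (fun k => ka k ^ 2) (cl s)) : ℂ) +
        (inner ℂ (fs D k (smI D ka (cl s), smI D kb (cl s)))
          (smI D (fun k => kb k ^ 2) (cl s)) : ℂ) :=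
      funext fun s => hV _ _ _ _ _
    rw [e]
    exact h3.2
  -- the equations
  have heq : ∀ᶠ j in atTop, cs j t k = c0 k +
      ∫ s in Ioc 0 t, (inner ℂ (D.e k) (VN D (box (Nn j)) (cs j s)) : ℂ) := by
    have h1 : Tendsto (fun j => box (Nn j)) atTop atTop :=
      tendsto_box.comp hconv.2.1.tendsto_atTop
    filter_upwards [h1.eventually (eventually_ge_atTop {k})] with j hj
    have hk : k ∈ box (Nn j) := hj (Finset.mem_singleton_self k)
    have hF := intervalIntegral.integral_eq_sub_of_hasDeriv_right_of_le ht.1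
      (f := fun t => cs j t k)
      (f' := fun s => (inner ℂ (D.e k) (VN D (box (Nn j)) (cs j s)) : ℂ))
      ((cont_cs (hSol j) k).mono (Icc_subset_Icc_right ht.2))
      (fun x hx => by
        have hx' : x ∈ Icc (0 : ℝ) T := ⟨hx.1.le, hx.2.le.trans ht.2⟩
        have hn : Icc (0 : ℝ) T ∈ 𝓝 x := Icc_mem_nhds hx.1 (lt_of_lt_of_le hx.2 ht.2)
        exact (((hSol j).2.2 k hk x hx').hasDerivAt hn).hasDerivWithinAt)
      ((intervalIntegrable_iff_integrableOn_Ioc_of_le ht.1).2 (hVj j).1)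
    rw [intervalIntegral.integral_of_le ht.1, (hSol j).1] at hF
    rw [hF]
    ring
  have hlim : Tendsto (fun j => c0 k +
      ∫ s in Ioc 0 t, (inner ℂ (D.e k) (VN D (box (Nn j)) (cs j s)) : ℂ)) atTop
      (𝓝 (c0 k + ∫ s in Ioc 0 t, (inner ℂ (D.e k) (VI D (cl s)) : ℂ))) := by
    apply tendsto_const_nhds.add
    rw [hVl]
    have := ((q3.const_mul (D.n : ℂ)).add p3).add r3
    refine this.congr fun j => ?_
    rw [(hVj j).2]
  have hcl : Tendsto (fun j => cs j t k) atTop (𝓝 (cl t k)) :=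
    (hconv.2.2.2.2 k).tendsto_at ht
  rw [intervalIntegral.integral_of_le ht.1]
  exact tendsto_nhds_unique hcl (hlim.congr' (heq.mono fun j hj => hj.symm))

end Pool.Agent.W397.IW.Leq
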