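import Pool.Agent.W488.IW.Stm

/-!
# Project IW: the limit equation
-/

set_option autoImplicit false
set_option linter.unusedSectionVars false

namespace Pool.Agent.W397.IW.Leq

open MeasureTheory Set Filter Topology Pool.Agent.W488.IW

/-! ### the symbols -/

lemma m2_nonneg (k : Idx) : 0 ≤ m2 k := by unfold m2; positivity

lemma norm_ka_sq (k : Idx) : ‖ka k‖ ^ 2 = m2 k := by
  rw [← Complex.normSq_eq_norm_sq]
  simp only [ka, m2, Complex.normSq_apply, Complex.mul_re, Complex.mul_im, Complex.sub_re,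
    Complex.sub_im, Complex.ofReal_re, Complex.ofReal_im, Complex.I_re, Complex.I_im,
    Complex.intCast_re, Complex.intCast_im]
  ring

lemma norm_kb_sq (k : Idx) : ‖kb k‖ ^ 2 = m2 k := by
  rw [← Complex.normSq_eq_norm_sq]
  simp only [kb, m2, Complex.normSq_apply, Complex.mul_re, Complex.mul_im, Complex.add_re,
    Complex.add_im, Complex.ofReal_re, Complex.ofReal_im, Complex.I_re, Complex.I_im,
    Complex.intCast_re, Complex.intCast_im]
  ring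

lemma m2_le_sq (k : Idx) : m2 k ≤ m2 k ^ 2 := by
  have h : k.1 ^ 2 + k.2 ^ 2 = 0 ∨ 1 ≤ k.1 ^ 2 + k.2 ^ 2 := by
    have : 0 ≤ k.1 ^ 2 + k.2 ^ 2 := by positivity
    omega
  have hc : (((k.1 ^ 2 + k.2 ^ 2 : ℤ)) : ℝ) = (k.1 : ℝ) ^ 2 + (k.2 : ℝ) ^ 2 := by push_cast; ring
  rcases h with h | h
  · have : m2 k = 0 := by
      unfold m2
      rw [← hc, h]
      simp
    rw [this]; norm_num
  · have h1 : 1 ≤ m2 k := by
      unfold m2
      rw [← hc]
      have h2 : (1 : ℝ) ≤ ((k.1 ^ 2 + k.2 ^ 2 : ℤ) : ℝ) := by exact_mod_cast h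
      have h3 : (1 : ℝ) ≤ Real.pi ^ 2 := by nlinarith [Real.pi_gt_three]
      nlinarith
    nlinarith

lemma norm_ka_le (k : Idx) : ‖ka k‖ ≤ m2 k := by
  have h1 := norm_ka_sq k
  have h2 := m2_le_sq k
  rw [← h1] at h2
  exact (pow_le_pow_iff_left₀ (norm_nonneg _) (m2_nonneg k) two_ne_zero).1 (by
    rw [norm_ka_sq] at h2 ⊢; exact h2)

lemma norm_kb_le (k : Idx) : ‖kb k‖ ≤ m2 k := by
  have h2 := m2_le_sq k
  exact (pow_le_pow_iff_left₀ (norm_nonneg _) (m2_nonneg k) two_ne_zero).1 (by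
    rw [norm_kb_sq]; exact h2)

lemma norm_p_le (k : Idx) : ‖ka k ^ 2‖ ≤ m2 k := by rw [norm_pow, norm_ka_sq]
lemma norm_r_le (k : Idx) : ‖kb k ^ 2‖ ≤ m2 k := by rw [norm_pow, norm_kb_sq]
lemma norm_q_le (k : Idx) : ‖ka k * kb k‖ ≤ m2 k := by
  rw [norm_mul]
  have h1 := norm_ka_sq k
  have h2 := norm_kb_sq k
  nlinarith [sq_nonneg (‖ka k‖ - ‖kb k‖)]

lemma mem_box {N : ℕ} {k : Idx} : k ∈ box N ↔ k.1.natAbs ≤ N ∧ k.2.natAbs ≤ N := by
  unfold box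
  rw [Finset.mem_product, Finset.mem_Icc, Finset.mem_Icc]
  omega

lemma box_mono {N M : ℕ} (h : N ≤ M) : box N ⊆ box M := by
  intro k hk
  rw [mem_box] at hk ⊢
  omega

lemma tendsto_box : Tendsto box atTop atTop := by
  apply tendsto_atTop_finset_of_monotone (fun N M h => box_mono h)
  intro k
  exact ⟨max k.1.natAbs k.2.natAbs, mem_box.2 ⟨le_max_left _ _, le_max_right _ _⟩⟩

/-! ### Hilbert basis -/

variable {H : Type} [NormedAddCommGroup H] [InnerProductSpace ℂ H] [CompleteSpace H]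

lemma norm_sm_sq (D : Dat H) (Λ : Finset Idx) (w c : Idx → ℂ) :
    ‖sm D Λ w c‖ ^ 2 = ∑ k ∈ Λ, ‖w k * c k‖ ^ 2 := by
  have h := D.e.orthonormal.inner_sum (fun k => w k * c k) (fun k => w k * c k) Λ
  have h1 : (inner ℂ (sm D Λ w c) (sm D Λ w c) : ℂ) = ((∑ k ∈ Λ, ‖w k * c k‖ ^ 2 : ℝ) : ℂ) := by
    unfold sm
    rw [h]
    push_cast
    apply Finset.sum_congr rfl
    intro k _
    rw [Complex.conj_mul']
  rw [inner_self_eq_norm_sq_to_K] at h1
  have h2 : ((‖sm D Λ w c‖ ^ 2 : ℝ) : ℂ) = ((∑ k ∈ Λ, ‖w k * c k‖ ^ 2 : ℝ) : ℂ) := by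
    rw [← h1]; push_cast; rfl
  exact_mod_cast h2

lemma inner_sm (D : Dat H) {Λ : Finset Idx} (w c : Idx → ℂ) {l : Idx} (hl : l ∈ Λ) :
    (inner ℂ (D.e l) (sm D Λ w c) : ℂ) = w l * c l := by
  unfold sm
  exact D.e.orthonormal.inner_right_sum (fun k => w k * c k) hl

lemma hasSum_smI (D : Dat H) {w c : Idx → ℂ} (h : Summable fun k => ‖w k * c k‖ ^ 2) :
    HasSum (fun k => (w k * c k) • D.e k) (smI D w c) ∧
      ∀ l, (inner ℂ (D.e l) (smI D w c) : ℂ) = w l * c l := by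
  have hm : Memℓp (fun k => w k * c k) 2 := by
    apply memℓp_gen
    simpa using h
  let f : lp (fun _ : Idx => ℂ) 2 := ⟨fun k => w k * c k, hm⟩
  have h1 := D.e.hasSum_repr_symm f
  have h2 : smI D w c = D.e.repr.symm f := h1.tsum_eq
  refine ⟨by rw [h2]; exact h1, fun l => ?_⟩
  rw [h2, ← D.e.repr_apply_apply, LinearIsometryEquiv.apply_symm_apply]

lemma norm_smI_sq_le (D : Dat H) {w c : Idx → ℂ} (hw : ∀ k, ‖w k‖ ≤ m2 k)
    (h : Summable fun k => m2 k ^ 2 * ‖c k‖ ^ 2) :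
    ‖smI D w c‖ ^ 2 ≤ ∑' k, m2 k ^ 2 * ‖c k‖ ^ 2 := by
  have hle : ∀ k, ‖w k * c k‖ ^ 2 ≤ m2 k ^ 2 * ‖c k‖ ^ 2 := by
    intro k
    rw [norm_mul, mul_pow]
    exact mul_le_mul_of_nonneg_right (pow_le_pow_left₀ (norm_nonneg _) (hw k) 2) (by positivity)
  have hs : Summable fun k => ‖w k * c k‖ ^ 2 :=
    Summable.of_nonneg_of_le (fun k => by positivity) hle h
  have h1 := (hasSum_smI D hs).1
  have h2 : Tendsto (fun Λ : Finset Idx => ‖sm D Λ w c‖ ^ 2) atTop (𝓝 (‖smI D w c‖ ^ 2)) :=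
    (h1.norm.pow 2)
  apply le_of_tendsto' h2
  intro Λ
  rw [norm_sm_sq]
  calc ∑ k ∈ Λ, ‖w k * c k‖ ^ 2 ≤ ∑ k ∈ Λ, m2 k ^ 2 * ‖c k‖ ^ 2 := Finset.sum_le_sum fun k _ => hle k
    _ ≤ _ := h.sum_le_tsum Λ fun k _ => by positivity

lemma norm_pr_le (D : Dat H) (Λ : Finset Idx) (v : H) : ‖pr D Λ v‖ ≤ ‖v‖ := by
  have h := D.e.orthonormal.inner_sum (fun k => (inner ℂ (D.e k) v : ℂ))
    (fun k => (inner ℂ (D.e k) v : ℂ)) Λ
  have h1 : ‖pr D Λ v‖ ^ 2 = ∑ k ∈ Λ, ‖(inner ℂ (D.e k) v : ℂ)‖ ^ 2 := by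
    have h2 : (inner ℂ (pr D Λ v) (pr D Λ v) : ℂ) =
        ((∑ k ∈ Λ, ‖(inner ℂ (D.e k) v : ℂ)‖ ^ 2 : ℝ) : ℂ) := by
      unfold pr
      rw [h]
      push_cast
      apply Finset.sum_congr rfl
      intro k _
      rw [Complex.conj_mul']
    rw [inner_self_eq_norm_sq_to_K] at h2
    have h3 : ((‖pr D Λ v‖ ^ 2 : ℝ) : ℂ) =
        ((∑ k ∈ Λ, ‖(inner ℂ (D.e k) v : ℂ)‖ ^ 2 : ℝ) : ℂ) := by
      rw [← h2]; push_cast; rfl
    exact_mod_cast h3
  have h4 := D.e.orthonormal.sum_inner_products_le v (s := Λ)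
  rw [← h1] at h4
  exact (pow_le_pow_iff_left₀ (norm_nonneg _) (norm_nonneg _) two_ne_zero).1 h4

lemma inner_pr (D : Dat H) (Λ : Finset Idx) (v u : H) :
    (inner ℂ (pr D Λ v) u : ℂ) =
      ∑ k ∈ Λ, (starRingEnd ℂ) (inner ℂ (D.e k) v : ℂ) * (inner ℂ (D.e k) u : ℂ) := by
  unfold pr
  rw [sum_inner]
  apply Finset.sum_congr rfl
  intro k _
  rw [inner_smul_left]

lemma tendsto_pr (D : Dat H) (v : H) :
    Tendsto (fun K => ‖v - pr D (box K) v‖ ^ 2) atTop (𝓝 0) := by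
  have h1 : HasSum (fun k => (inner ℂ (D.e k) v : ℂ) • D.e k) v := by
    have h := D.e.hasSum_repr v
    simpa only [D.e.repr_apply_apply] using h
  have h2 : Tendsto (fun K => pr D (box K) v) atTop (𝓝 v) := h1.comp tendsto_box
  have h3 : Tendsto (fun K => ‖v - pr D (box K) v‖ ^ 2) atTop (𝓝 (‖v - v‖ ^ 2)) :=
    ((tendsto_const_nhds.sub h2).norm).pow 2
  simpa using h3

lemma norm_inner_le_young (x y : H) {η : ℝ} (hη : 0 < η) :
    ‖(inner ℂ x y : ℂ)‖ ≤ 1 / (2 * η) * ‖x‖ ^ 2 + η / 2 * ‖y‖ ^ 2 := by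
  refine (norm_inner_le_norm x y).trans ?_
  have h1 : 0 ≤ (‖x‖ - η * ‖y‖) ^ 2 / (2 * η) := by positivity
  have h2 : (‖x‖ - η * ‖y‖) ^ 2 / (2 * η) =
      1 / (2 * η) * ‖x‖ ^ 2 + η / 2 * ‖y‖ ^ 2 - ‖x‖ * ‖y‖ := by
    field_simp
    ring
  linarith

lemma integrable_inner {μ : Measure ℝ} [IsFiniteMeasure μ] {φ u : ℝ → H}
    (hφ : AEStronglyMeasurable φ μ) (hφ1 : ∀ s, ‖φ s‖ ≤ 1) (hu : AEStronglyMeasurable u μ)
    (hui : Integrable (fun s => ‖u s‖ ^ 2) μ) :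
    Integrable (fun s => (inner ℂ (φ s) (u s) : ℂ)) μ := by
  refine Integrable.mono' ((integrable_const (1 / 2 : ℝ)).add (hui.const_mul (1 / 2)))
    (hφ.inner hu) (Filter.Eventually.of_forall fun s => ?_)
  have h1 := norm_inner_le_young (φ s) (u s) one_pos
  have h2 : ‖φ s‖ ^ 2 ≤ 1 := pow_le_one₀ (norm_nonneg _) (hφ1 s)
  simp only [Pi.add_apply]
  linarith

/-- Products of strongly and weakly convergent sequences. -/
lemma weak_strong (D : Dat H) {μ : Measure ℝ} [IsFiniteMeasure μ] {u : ℕ → ℝ → H} {ul : ℝ → H}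
    {φ : ℕ → ℝ → H} {φl : ℝ → H} {C : ℝ}
    (hu : ∀ j, AEStronglyMeasurable (u j) μ) (hul : AEStronglyMeasurable ul μ)
    (hui : ∀ j, Integrable (fun s => ‖u j s‖ ^ 2) μ) (huli : Integrable (fun s => ‖ul s‖ ^ 2) μ)
    (hC : ∀ j, ∫ s, ‖u j s‖ ^ 2 ∂μ ≤ C) (hCl : ∫ s, ‖ul s‖ ^ 2 ∂μ ≤ C)
    (hco : ∀ l, Tendsto (fun j => ∫ s, ‖(inner ℂ (D.e l) (u j s) : ℂ) -
      (inner ℂ (D.e l) (ul s) : ℂ)‖ ∂μ) atTop (𝓝 0))
    (hφ : ∀ j, AEStronglyMeasurable (φ j) μ) (hφl : AEStronglyMeasurable φl μ)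
    (hφ1 : ∀ j s, ‖φ j s‖ ≤ 1) (hφl1 : ∀ s, ‖φl s‖ ≤ 1)
    (hφc : Tendsto (fun j => ∫ s, ‖φ j s - φl s‖ ^ 2 ∂μ) atTop (𝓝 0)) :
    Tendsto (fun j => ∫ s, (inner ℂ (φ j s) (u j s) : ℂ) ∂μ) atTop
      (𝓝 (∫ s, (inner ℂ (φl s) (ul s) : ℂ) ∂μ)) := by
  have hC0 : 0 ≤ C := (integral_nonneg fun s => by positivity).trans hCl
  rw [Metric.tendsto_atTop]
  intro ε hε
  set η : ℝ := ε / (10 * (C + 1)) with hη
  have hη0 : 0 < η := by positivity
  -- the projections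
  have hprm : ∀ K, AEStronglyMeasurable (fun s => pr D (box K) (φl s)) μ := by
    intro K
    unfold pr
    exact Finset.aestronglyMeasurable_fun_sum _ fun k _ =>
      ((aestronglyMeasurable_const.inner hφl).smul_const _)
  have hpr : Tendsto (fun K => ∫ s, ‖φl s - pr D (box K) (φl s)‖ ^ 2 ∂μ) atTop (𝓝 0) := by
    have h := tendsto_integral_of_dominated_convergence (μ := μ)
      (F := fun K s => ‖φl s - pr D (box K) (φl s)‖ ^ 2) (f := fun _ => (0 : ℝ))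
      (fun _ => (4 : ℝ)) (fun K => ((hφl.sub (hprm K)).norm.pow 2))
      (integrable_const _) (fun K => Filter.Eventually.of_forall fun s => by
        rw [Real.norm_of_nonneg (by positivity)]
        have h1 := norm_sub_le (φl s) (pr D (box K) (φl s))
        have h2 := norm_pr_le D (box K) (φl s)
        have h3 := hφl1 s
        have h4 : ‖φl s - pr D (box K) (φl s)‖ ≤ 2 := by linarith
        have h5 := norm_nonneg (φl s - pr D (box K) (φl s))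
        nlinarith)
      (Filter.Eventually.of_forall fun s => tendsto_pr D (φl s))
    simpa using h
  obtain ⟨K, hK⟩ := ((hpr.eventually (gt_mem_nhds (show (0 : ℝ) < η * ε / 4 by positivity)))).exists
  have hsum : Tendsto (fun j => ∑ l ∈ box K, ∫ s, ‖(inner ℂ (D.e l) (u j s) : ℂ) -
      (inner ℂ (D.e l) (ul s) : ℂ)‖ ∂μ) atTop (𝓝 0) := by
    have h := tendsto_finsetSum (box K) (fun l _ => hco l)
    simpa using h
  have he1 := hsum.eventually (gt_mem_nhds (show (0 : ℝ) < ε / 4 by positivity))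
  have he2 := hφc.eventually (gt_mem_nhds (show (0 : ℝ) < η * ε / 4 by positivity))
  obtain ⟨j0, hj0⟩ := (he1.and he2).exists_forall_of_atTop
  refine ⟨j0, fun j hj => ?_⟩
  obtain ⟨h1, h2⟩ := hj0 j hj
  rw [dist_eq_norm]
  have hint1 := integrable_inner (hφ j) (hφ1 j) (hu j) (hui j)
  have hint2 := integrable_inner hφl hφl1 hul huli
  rw [← integral_sub hint1 hint2]
  -- the dominating function
  have hd1 : Integrable (fun s => ‖φ j s - φl s‖ ^ 2) μ := by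
    refine Integrable.mono' (integrable_const (4 : ℝ)) (((hφ j).sub hφl).norm.pow 2)
      (Filter.Eventually.of_forall fun s => ?_)
    rw [Real.norm_of_nonneg (by positivity)]
    have h3 := norm_sub_le (φ j s) (φl s)
    have h4 := hφ1 j s
    have h5 := hφl1 s
    nlinarith [norm_nonneg (φ j s - φl s)]
  have hd2 : Integrable (fun s => ‖φl s - pr D (box K) (φl s)‖ ^ 2) μ := by
    refine Integrable.mono' (integrable_const (4 : ℝ)) ((hφl.sub (hprm K)).norm.pow 2)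
      (Filter.Eventually.of_forall fun s => ?_)
    rw [Real.norm_of_nonneg (by positivity)]
    have h3 := norm_sub_le (φl s) (pr D (box K) (φl s))
    have h4 := norm_pr_le D (box K) (φl s)
    have h5 := hφl1 s
    nlinarith [norm_nonneg (φl s - pr D (box K) (φl s))]
  have hd3 : ∀ l ∈ box K, Integrable (fun s => ‖(inner ℂ (D.e l) (u j s) : ℂ) -
      (inner ℂ (D.e l) (ul s) : ℂ)‖) μ := by
    intro l _
    have he : ∀ s : ℝ, ‖(fun _ : ℝ => D.e l) s‖ ≤ 1 := fun s => (D.e.orthonormal.1 l).le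
    exact ((integrable_inner (φ := fun _ => D.e l) aestronglyMeasurable_const he (hu j)
      (hui j)).sub (integrable_inner (φ := fun _ => D.e l) aestronglyMeasurable_const he hul
      huli)).norm
  have hd3' : Integrable (fun s => ∑ l ∈ box K, ‖(inner ℂ (D.e l) (u j s) : ℂ) -
      (inner ℂ (D.e l) (ul s) : ℂ)‖) μ := integrable_finsetSum _ hd3
  have hdom : ∀ s, ‖(inner ℂ (φ j s) (u j s) : ℂ) - (inner ℂ (φl s) (ul s) : ℂ)‖ ≤
      1 / (2 * η) * ‖φ j s - φl s‖ ^ 2 + 1 / (2 * η) * ‖φl s - pr D (box K) (φl s)‖ ^ 2 +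
        (3 * η / 2) * ‖u j s‖ ^ 2 + η * ‖ul s‖ ^ 2 +
        ∑ l ∈ box K, ‖(inner ℂ (D.e l) (u j s) : ℂ) - (inner ℂ (D.e l) (ul s) : ℂ)‖ := by
    intro s
    have e : (inner ℂ (φ j s) (u j s) : ℂ) - (inner ℂ (φl s) (ul s) : ℂ) =
        inner ℂ (φ j s - φl s) (u j s) + inner ℂ (φl s - pr D (box K) (φl s)) (u j s - ul s) +
          inner ℂ (pr D (box K) (φl s)) (u j s - ul s) := by
      simp only [inner_sub_left, inner_sub_right]
      ring
    have h3 := norm_inner_le_young (φ j s - φl s) (u j s) hη0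
    have h4 := norm_inner_le_young (φl s - pr D (box K) (φl s)) (u j s - ul s) hη0
    have h5 : ‖u j s - ul s‖ ^ 2 ≤ 2 * ‖u j s‖ ^ 2 + 2 * ‖ul s‖ ^ 2 := by
      have := norm_sub_le (u j s) (ul s)
      nlinarith [norm_nonneg (u j s - ul s), sq_nonneg (‖u j s‖ - ‖ul s‖), norm_nonneg (u j s),
        norm_nonneg (ul s)]
    have h6 : ‖(inner ℂ (pr D (box K) (φl s)) (u j s - ul s) : ℂ)‖ ≤
        ∑ l ∈ box K, ‖(inner ℂ (D.e l) (u j s) : ℂ) - (inner ℂ (D.e l) (ul s) : ℂ)‖ := by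
      rw [inner_pr]
      refine (norm_sum_le _ _).trans (Finset.sum_le_sum fun l _ => ?_)
      rw [norm_mul, Complex.norm_conj, inner_sub_right]
      apply mul_le_of_le_one_left (norm_nonneg _)
      refine (norm_inner_le_norm _ _).trans ?_
      rw [D.e.orthonormal.1 l, one_mul]
      exact hφl1 s
    rw [e]
    have h7 := norm_add₃_le (a := (inner ℂ (φ j s - φl s) (u j s) : ℂ))
      (b := (inner ℂ (φl s - pr D (box K) (φl s)) (u j s - ul s) : ℂ))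
      (c := (inner ℂ (pr D (box K) (φl s)) (u j s - ul s) : ℂ))
    have h8 := mul_le_mul_of_nonneg_left h5 (show 0 ≤ η / 2 by positivity)
    linarith
  have hI1 : Integrable (fun s => 1 / (2 * η) * ‖φ j s - φl s‖ ^ 2 +
      1 / (2 * η) * ‖φl s - pr D (box K) (φl s)‖ ^ 2) μ :=
    (hd1.const_mul (1 / (2 * η))).add (hd2.const_mul (1 / (2 * η)))
  have hI2 : Integrable (fun s => 1 / (2 * η) * ‖φ j s - φl s‖ ^ 2 +
      1 / (2 * η) * ‖φl s - pr D (box K) (φl s)‖ ^ 2 + (3 * η / 2) * ‖u j s‖ ^ 2) μ :=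
    hI1.add ((hui j).const_mul (3 * η / 2))
  have hI3 : Integrable (fun s => 1 / (2 * η) * ‖φ j s - φl s‖ ^ 2 +
      1 / (2 * η) * ‖φl s - pr D (box K) (φl s)‖ ^ 2 + (3 * η / 2) * ‖u j s‖ ^ 2 +
      η * ‖ul s‖ ^ 2) μ := hI2.add (huli.const_mul η)
  have hI4 : Integrable (fun s => 1 / (2 * η) * ‖φ j s - φl s‖ ^ 2 +
      1 / (2 * η) * ‖φl s - pr D (box K) (φl s)‖ ^ 2 + (3 * η / 2) * ‖u j s‖ ^ 2 +
      η * ‖ul s‖ ^ 2 + ∑ l ∈ box K, ‖(inner ℂ (D.e l) (u j s) : ℂ) -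
        (inner ℂ (D.e l) (ul s) : ℂ)‖) μ := hI3.add hd3'
  refine lt_of_le_of_lt (norm_integral_le_of_norm_le hI4 (Filter.Eventually.of_forall hdom)) ?_
  rw [integral_add hI3 hd3', integral_add hI2 (huli.const_mul η),
    integral_add hI1 ((hui j).const_mul (3 * η / 2)),
    integral_add (hd1.const_mul (1 / (2 * η))) (hd2.const_mul (1 / (2 * η))),
    integral_const_mul, integral_const_mul, integral_const_mul, integral_const_mul,
    integral_finsetSum _ hd3]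
  have g1 : 1 / (2 * η) * ∫ s, ‖φ j s - φl s‖ ^ 2 ∂μ ≤ ε / 8 := by
    calc 1 / (2 * η) * ∫ s, ‖φ j s - φl s‖ ^ 2 ∂μ ≤ 1 / (2 * η) * (η * ε / 4) :=
          mul_le_mul_of_nonneg_left h2.le (by positivity)
      _ = ε / 8 := by field_simp; ring
  have g2 : 1 / (2 * η) * ∫ s, ‖φl s - pr D (box K) (φl s)‖ ^ 2 ∂μ ≤ ε / 8 := by
    calc 1 / (2 * η) * ∫ s, ‖φl s - pr D (box K) (φl s)‖ ^ 2 ∂μ ≤ 1 / (2 * η) * (η * ε / 4) :=
          mul_le_mul_of_nonneg_left hK.le (by positivity)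
      _ = ε / 8 := by field_simp; ring
  have g3 : 3 * η / 2 * ∫ s, ‖u j s‖ ^ 2 ∂μ ≤ 3 * η / 2 * C :=
    mul_le_mul_of_nonneg_left (hC j) (by positivity)
  have g4 : η * ∫ s, ‖ul s‖ ^ 2 ∂μ ≤ η * C := mul_le_mul_of_nonneg_left hCl hη0.le
  have g5 : 3 * η / 2 * C + η * C ≤ ε / 4 := by
    have : 3 * η / 2 * C + η * C = ε / 4 * (C / (C + 1)) := by
      rw [hη]; field_simp; ring
    rw [this]
    have h9 : C / (C + 1) ≤ 1 := by
      rw [div_le_one (by linarith)]; linarith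
    exact mul_le_of_le_one_right (by positivity) h9
  linarith

end Pool.Agent.W397.IW.Leq
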